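import Pool.Agent.H190.NK.Dual

/-!
# From a counterexample to Tachikawa's second conjecture to one of the first
(project NK of helper379, job P2-CORE)
-/

set_option autoImplicit false
set_option linter.unusedSectionVars false
set_option linter.unusedVariables false

open CategoryTheory CategoryTheory.Abelian

namespace Pool.Agent.H190.NK

variable {K : Type} [Field K] {T : Type} [Ring T] [Algebra K T] (y : Sy K T)

include y in
theorem inj_pi (n : ℕ) : Module.Injective T (Fin n → T) := by
  have := y.injective_self
  refine ⟨fun P Q _ _ _ _ f hf g => ?_⟩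
  have h : ∀ i : Fin n, ∃ h : Q →ₗ[T] T, ∀ x, h (f x) = ((LinearMap.proj i) ∘ₗ g) x := by
    intro i
    exact this.out f hf _
  choose h hh using h
  refine ⟨LinearMap.pi h, fun x => ?_⟩
  ext i
  exact hh i x

include y in
theorem exists_embed {N : Type} [AddCommGroup N] [Module T N] [Module K N] [IsScalarTower K T N]
    [Module.Finite K N] : ∃ (n : ℕ) (j : N →ₗ[T] (Fin n → T)), Function.Injective j := by
  let b := Module.finBasis K N
  refine ⟨Module.finrank K N, LinearMap.pi fun i => y.lift (b.coord i), ?_⟩
  rw [← LinearMap.ker_eq_bot, LinearMap.ker_eq_bot']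
  intro q hq
  apply b.ext_elem
  intro i
  have h1 : y.lift (b.coord i) q = 0 := congrFun hq i
  have h2 := y.lam_lift (b.coord i) q
  rw [h1, map_zero] at h2
  rw [← Module.Basis.coord_apply, ← h2, map_zero]
  rfl

/-- the class of modules used in the dimension shift -/
def Cls (T X N : Type) [Ring T] [AddCommGroup X] [Module T X] [AddCommGroup N] [Module T N] :
    Prop :=
  Module.Finite T N ∧
    ∀ n : ℕ, Subsingleton (Ext.{0} (ModuleCat.of T X) (ModuleCat.of T N) (n + 1))

section steps

variable {X : Type} [AddCommGroup X] [Module T X]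
variable {N : Type} [AddCommGroup N] [Module T N]
variable {N' : Type} [AddCommGroup N'] [Module T N']

include y in
theorem cls_quot {n : ℕ} {j : N →ₗ[T] (Fin n → T)} (hj : Function.Injective j)
    {q : (Fin n → T) →ₗ[T] N'} (hq : Function.Surjective q) (h0 : ∀ a, q (j a) = 0)
    (hex : ∀ b, q b = 0 → ∃ a, j a = b) (hN : Cls T X N) : Cls T X N' := by
  refine ⟨Module.Finite.of_surjective q hq, fun k => ?_⟩
  have := inj_pi y n
  have : Injective (ModuleCat.of T (Fin n → T)) :=
    Module.injective_object_of_injective_module T (Fin n → T)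
  exact co_shift (shortExact_of j q hj hq h0 hex) (ModuleCat.of T X) k (hN.2 (k + 1))

theorem lift_of_cls {n : ℕ} {j : N →ₗ[T] (Fin n → T)} (hj : Function.Injective j)
    {q : (Fin n → T) →ₗ[T] N'} (hq : Function.Surjective q) (h0 : ∀ a, q (j a) = 0)
    (hex : ∀ b, q b = 0 → ∃ a, j a = b) (hN : Cls T X N) (g : (T × X) →ₗ[T] N') :
    ∃ g' : (T × X) →ₗ[T] (Fin n → T), q ∘ₗ g' = g := by
  obtain ⟨a, ha⟩ := hq (g (1, 0))
  obtain ⟨g₂, hg₂⟩ := co_lift (shortExact_of j q hj hq h0 hex) (ModuleCat.of T X) (hN.2 0)
    (ModuleCat.ofHom (g ∘ₗ LinearMap.inr T T X))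
  refine ⟨(LinearMap.toSpanSingleton T _ a).coprod g₂.hom, ?_⟩
  refine LinearMap.prod_ext ?_ ?_
  · ext
    simp [ha]
  · ext x
    have := LinearMap.congr_fun (congrArg ModuleCat.Hom.hom hg₂) x
    simpa using this

end steps

section main

variable {X : Type} [AddCommGroup X] [Module T X] [Module K X] [IsScalarTower K T X]
  [Module.Finite K X] [Module.Finite K T]

/-- The module structure on a module over an algebra -/
theorem tower_compHom (P : Type) [AddCommGroup P] [Module T P] :
    letI : Module K P := Module.compHom P (algebraMap K T)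
    IsScalarTower K T P := by
  let : Module K P := Module.compHom P (algebraMap K T)
  exact ⟨fun c t p => by
    change (c • t) • p = algebraMap K T c • (t • p)
    rw [smul_smul, Algebra.smul_def]⟩

include y in
theorem ext_G (k : ℕ) : ∀ (N : Type) [AddCommGroup N] [Module T N] [Module K N]
    [IsScalarTower K T N], Cls T X N →
    Subsingleton (Ext.{0} (ModuleCat.of (Module.End T (T × X)) (GG K (T × X) (T := T) N))
      (ModuleCat.of (Module.End T (T × X)) (Module.End T (T × X))) (k + 1)) := by
  have he : (LinearMap.fst T T X) ((1, 0) : T × X) = 1 := rfl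
  induction k with
  | zero =>
    intro N _ _ _ _ hN
    have := hN.1
    have : Module.Finite K N := Module.Finite.trans T N
    obtain ⟨n, j, hj⟩ := exists_embed y (N := N)
    let q := (LinearMap.range j).mkQ
    have hq : Function.Surjective q := Submodule.mkQ_surjective _
    have h0 : ∀ a, q (j a) = 0 := fun a => by
      rw [Submodule.mkQ_apply, Submodule.Quotient.mk_eq_zero]; exact ⟨a, rfl⟩
    have hex : ∀ b, q b = 0 → ∃ a, j a = b := fun b hb => by
      rw [Submodule.mkQ_apply, Submodule.Quotient.mk_eq_zero] at hb; exact hb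
    have hN' : Cls T X ((Fin n → T) ⧸ LinearMap.range j) := cls_quot y hj hq h0 hex hN
    have := hN'.1
    have : Module.Finite K ((Fin n → T) ⧸ LinearMap.range j) := Module.Finite.trans T _
    obtain ⟨m, j', hj'⟩ := exists_embed y (N := (Fin n → T) ⧸ LinearMap.range j)
    let q' := (LinearMap.range j').mkQ
    have h0' : ∀ a, q' (j' a) = 0 := fun a => by
      rw [Submodule.mkQ_apply, Submodule.Quotient.mk_eq_zero]; exact ⟨a, rfl⟩
    have hex' : ∀ b, q' b = 0 → ∃ a, j' a = b := fun b hb => by
      rw [Submodule.mkQ_apply, Submodule.Quotient.mk_eq_zero] at hb; exact hb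
    have hlift := lift_of_cls hj hq h0 hex hN
    have hSE := shortExact_of (Gmap (K := K) (M := T × X) q) (Gmap (K := K) (M := T × X) j)
      (Gmap_inj hlift) (Gmap_surj hj) (Gmap_comp_zero h0) (Gmap_exact hj hex hlift)
    have hP := projective_G y he n
    have hP' : Projective (ModuleCat.of (Module.End T (T × X))
      (GG K (T × X) (T := T) (Fin n → T))) := (IsProjective.iff_projective _).mp hP
    refine contra_one hSE _ fun g => ?_
    obtain ⟨h', hh'⟩ := EE_surj' y he hj' h0' hex' g.hom
    obtain ⟨ĥ, hĥ⟩ := hlift h'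
    refine ⟨ModuleCat.ofHom (EE y ĥ), ?_⟩
    apply ModuleCat.hom_ext
    refine LinearMap.ext fun ξ => ?_
    rw [← hh', ← hĥ, EE_comp]
    rfl
  | succ k ih =>
    intro N _ _ _ _ hN
    have := hN.1
    have : Module.Finite K N := Module.Finite.trans T N
    obtain ⟨n, j, hj⟩ := exists_embed y (N := N)
    let q := (LinearMap.range j).mkQ
    have hq : Function.Surjective q := Submodule.mkQ_surjective _
    have h0 : ∀ a, q (j a) = 0 := fun a => by
      rw [Submodule.mkQ_apply, Submodule.Quotient.mk_eq_zero]; exact ⟨a, rfl⟩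
    have hex : ∀ b, q b = 0 → ∃ a, j a = b := fun b hb => by
      rw [Submodule.mkQ_apply, Submodule.Quotient.mk_eq_zero] at hb; exact hb
    have hN' : Cls T X ((Fin n → T) ⧸ LinearMap.range j) := cls_quot y hj hq h0 hex hN
    have hlift := lift_of_cls hj hq h0 hex hN
    have hSE := shortExact_of (Gmap (K := K) (M := T × X) q) (Gmap (K := K) (M := T × X) j)
      (Gmap_inj hlift) (Gmap_surj hj) (Gmap_comp_zero h0) (Gmap_exact hj hex hlift)
    have hP := projective_G y he n
    have hP' : Projective (ModuleCat.of (Module.End T (T × X))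
      (GG K (T × X) (T := T) (Fin n → T))) := (IsProjective.iff_projective _).mp hP
    exact contra_shift hSE _ k (ih _ hN')

end main

end Pool.Agent.H190.NK
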