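import Pool.Agent.H190.NK.Func

/-!
# Full faithfulness of `N ↦ D Hom_T(M, N)` into the regular module (project NK of helper379)
-/

set_option autoImplicit false
set_option linter.unusedSectionVars false
set_option linter.unusedVariables false

open CategoryTheory CategoryTheory.Abelian

namespace Pool.Agent.H190.NK

variable {K : Type} [Field K] {T : Type} [Ring T] [Algebra K T] (y : Sy K T)
variable {M : Type} [AddCommGroup M] [Module T M] [Module K M] [IsScalarTower K T M]
  [Module.Finite K M]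
variable {N : Type} [AddCommGroup N] [Module T N] [Module K N] [IsScalarTower K T N]
variable {N' : Type} [AddCommGroup N'] [Module T N'] [Module K N'] [IsScalarTower K T N']
variable {N'' : Type} [AddCommGroup N''] [Module T N''] [Module K N''] [IsScalarTower K T N'']

variable {p₁ : M →ₗ[T] T} {e : M}

include y in
theorem EE_inj (he : p₁ e = 1) {u u' : M →ₗ[T] N} (h : EE y u = EE y u') : u = u' := by
  refine LinearMap.ext fun x => ?_
  rw [← sub_eq_zero, ← Module.forall_dual_apply_eq_zero_iff K]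
  intro l
  let ξ : GG K M (T := T) N := GG.mk
    { toFun := fun f => l (f e)
      map_add' := fun f g => by rw [LinearMap.add_apply, map_add]
      map_smul' := fun c f => by rw [LinearMap.smul_apply, map_smul, RingHom.id_apply] }
  have key : ∀ v : M →ₗ[T] N, y.lam (p₁ (EE y v ξ x)) = l (v x) := by
    intro v
    rw [EE_spec]
    change l (p₁ e • v x) = _
    rw [he, one_smul]
  rw [map_sub, ← key u, ← key u', h, sub_self]

/-- the canonical elements of `G (T^n)` -/
def iot {m : ℕ} (i : Fin m) : M →ₗ[Module.End T M] GG K M (T := T) (Fin m → T) where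
  toFun z := GG.mk
    { toFun := fun f => y.lam (f z i)
      map_add' := fun f g => by rw [LinearMap.add_apply, Pi.add_apply, map_add]
      map_smul' := fun c f => by
        rw [LinearMap.smul_apply, Pi.smul_apply, map_smul, RingHom.id_apply] }
  map_add' z z' := GG.ext fun f => by
    change y.lam (f (z + z') i) = y.lam (f z i) + y.lam (f z' i)
    rw [map_add, Pi.add_apply, map_add]
  map_smul' γ z := GG.ext fun f => rfl

theorem iot_ev {m : ℕ} (i : Fin m) (z : M) (f : M →ₗ[T] (Fin m → T)) :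
    (iot (K := K) y i z).ev f = y.lam (f z i) := rfl

theorem ev_sum {ι : Type} (s : Finset ι) (ξ : ι → GG K M (T := T) N) (f : M →ₗ[T] N) :
    (∑ i ∈ s, ξ i).ev f = ∑ i ∈ s, (ξ i).ev f := by
  classical
  induction s using Finset.induction_on with
  | empty => simp
  | insert a s ha ih => rw [Finset.sum_insert ha, Finset.sum_insert ha, GG.ev_add, ih]

/-- coordinates of the elements of `G (T^n)` -/
theorem iot_coord (he : p₁ e = 1) {m : ℕ} (ξ : GG K M (T := T) (Fin m → T)) :
    ∑ i, iot y i (EE y ((LinearMap.single T (fun _ => T) i) ∘ₗ p₁) ξ e) = ξ := by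
  refine GG.ext fun f => ?_
  rw [ev_sum]
  have : ∀ i : Fin m, (iot y i (EE y ((LinearMap.single T (fun _ => T) i) ∘ₗ p₁) ξ e)).ev f =
      ξ.ev ((LinearMap.single T (fun _ => T) i) ∘ₗ (LinearMap.proj i) ∘ₗ f) := by
    intro i
    rw [iot_ev]
    change y.lam (((LinearMap.proj i : (Fin m → T) →ₗ[T] T) ∘ₗ f) _) = _
    rw [EE_spec]
    congr 1
    ext z j
    simp only [LinearMap.smulRight_apply, LinearMap.comp_apply, he, Pi.smul_apply, smul_eq_mul,
      LinearMap.coe_single, LinearMap.coe_proj, Function.eval]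
    by_cases hj : j = i
    · subst hj; simp
    · simp [hj]
  rw [Finset.sum_congr rfl fun i _ => this i, ← map_sum]
  congr 1
  ext z j
  simp only [LinearMap.sum_apply, LinearMap.comp_apply, LinearMap.coe_single, LinearMap.coe_proj,
    Function.eval, Finset.sum_apply]
  rw [Finset.sum_eq_single j]
  · simp
  · intro i _ hi; simp [hi.symm]
  · simp

include y in
/-- `G (T^n)` is projective -/
theorem projective_G (he : p₁ e = 1) (m : ℕ) :
    Module.Projective (Module.End T M) (GG K M (T := T) (Fin m → T)) := by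
  refine Module.Projective.of_split (M := Fin m → Module.End T M)
    (LinearMap.pi fun i => EE y ((LinearMap.single T (fun _ => T) i) ∘ₗ p₁))
    (∑ i, (iot y i) ∘ₗ (LinearMap.toSpanSingleton (Module.End T M) M e) ∘ₗ (LinearMap.proj i)) ?_
  refine LinearMap.ext fun ξ => ?_
  simp only [LinearMap.comp_apply, LinearMap.sum_apply, LinearMap.pi_apply, LinearMap.coe_proj,
    Function.eval, LinearMap.id_apply, LinearMap.toSpanSingleton_apply, Module.End.smul_def]
  exact iot_coord y he ξ

/-- the endomorphism `x ↦ p₁ x • z` -/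
theorem endo_hom (he : p₁ e = 1) (θ : M →ₗ[Module.End T M] Module.End T M) (z x : M) :
    θ z x = p₁ (θ e x) • z := by
  have h1 : z = (p₁.smulRight z : Module.End T M) • e := by
    change z = p₁ e • z
    rw [he, one_smul]
  have h2 : θ z = (p₁.smulRight z : Module.End T M) * θ e := by
    conv_lhs => rw [h1]
    rw [map_smul, smul_eq_mul]
  rw [h2]
  rfl

theorem EE_surj (he : p₁ e = 1) {m : ℕ}
    (ψ : GG K M (T := T) (Fin m → T) →ₗ[Module.End T M] Module.End T M) :
    ∃ h : M →ₗ[T] (Fin m → T), EE y h = ψ := by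
  refine ⟨LinearMap.pi fun i => p₁ ∘ₗ ((ψ ∘ₗ iot y i) e : Module.End T M), ?_⟩
  have key : ∀ (i : Fin m) (z : M),
      EE y (LinearMap.pi fun i => p₁ ∘ₗ ((ψ ∘ₗ iot y i) e : Module.End T M)) (iot y i z) =
        ψ (iot y i z) := by
    intro i z
    refine LinearMap.ext fun x => y.sep fun s => ?_
    rw [EE_spec, iot_ev]
    have h2 := endo_hom he (ψ ∘ₗ iot y i) z x
    rw [LinearMap.comp_apply] at h2
    rw [h2, map_smul, smul_eq_mul, y.lam_comm]
    rfl
  refine LinearMap.ext fun ξ => ?_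
  rw [← iot_coord y he ξ, map_sum, map_sum]
  exact Finset.sum_congr rfl fun i _ => key i _

theorem EE_zero : EE y (0 : M →ₗ[T] N) = 0 := by
  refine LinearMap.ext fun ξ => LinearMap.ext fun x => y.sep fun s => ?_
  rw [EE_spec]
  have : s.smulRight ((0 : M →ₗ[T] N) x) = 0 := by ext z; simp
  rw [this]
  simp

/-- factoring of maps through kernels -/
theorem factor {j : N →ₗ[T] N'} (hj : Function.Injective j) {q : N' →ₗ[T] N''}
    (hex : ∀ b, q b = 0 → ∃ a, j a = b) (h : M →ₗ[T] N') (hq : q ∘ₗ h = 0) :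
    ∃ h' : M →ₗ[T] N, h = j ∘ₗ h' := by
  have hr : LinearMap.ker q ≤ LinearMap.range j := fun b hb => hex b hb
  refine ⟨(LinearEquiv.ofInjective j hj).symm.toLinearMap ∘ₗ (h.codRestrict (LinearMap.range j)
    fun x => hr (LinearMap.congr_fun hq x)), ?_⟩
  ext x
  have := (LinearEquiv.ofInjective j hj).apply_symm_apply
    ((h.codRestrict (LinearMap.range j) fun x => hr (LinearMap.congr_fun hq x)) x)
  have h2 := congrArg Subtype.val this
  exact h2.symm

theorem Gmap_surj {v : N →ₗ[T] N'} (hv : Function.Injective v) :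
    Function.Surjective (Gmap (K := K) (M := M) v) := by
  intro ξ
  have hpost : Function.Injective (post (K := K) (M := M) v) := by
    intro f g hfg
    ext x
    exact hv (LinearMap.congr_fun hfg x)
  obtain ⟨η, hη⟩ := LinearMap.dualMap_surjective_of_injective hpost ξ
  exact ⟨η, hη⟩

theorem Gmap_inj {v : N →ₗ[T] N'} (hv : ∀ g : M →ₗ[T] N', ∃ g' : M →ₗ[T] N, v ∘ₗ g' = g) :
    Function.Injective (Gmap (K := K) (M := M) v) := by
  intro ξ ξ' h
  refine GG.ext fun f => ?_
  obtain ⟨f', rfl⟩ := hv f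
  rw [← ev_Gmap, ← ev_Gmap, h]

theorem Gmap_exact {j : N →ₗ[T] N'} (hj : Function.Injective j) {q : N' →ₗ[T] N''}
    (hex : ∀ b, q b = 0 → ∃ a, j a = b)
    (hv : ∀ g : M →ₗ[T] N'', ∃ g' : M →ₗ[T] N', q ∘ₗ g' = g) (ξ : GG K M (T := T) N')
    (h : Gmap j ξ = 0) : ∃ η : GG K M (T := T) N'', Gmap q η = ξ := by
  have h1 : (ξ.ev : Module.Dual K (M →ₗ[T] N')) ∈
      LinearMap.range (post (K := K) (M := M) q).dualMap := by
    rw [LinearMap.range_dualMap_eq_dualAnnihilator_ker, Submodule.mem_dualAnnihilator]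
    intro f hf
    obtain ⟨f', rfl⟩ := factor hj hex f (by exact hf)
    rw [← ev_Gmap, h]
    rfl
  obtain ⟨η, hη⟩ := h1
  exact ⟨η, hη⟩

theorem Gmap_comp_zero {j : N →ₗ[T] N'} {q : N' →ₗ[T] N''} (h0 : ∀ a, q (j a) = 0)
    (ξ : GG K M (T := T) N'') : Gmap j (Gmap q ξ) = 0 := by
  refine GG.ext fun f => ?_
  rw [ev_Gmap, ev_Gmap]
  have : q ∘ₗ (j ∘ₗ f) = 0 := by ext x; exact h0 _
  rw [this]
  simp

/-- every map `G N → A` comes from `M → N` when `N` embeds well in a `T^m` -/
theorem EE_surj' (he : p₁ e = 1) {m : ℕ} {j : N →ₗ[T] (Fin m → T)} (hj : Function.Injective j)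
    {q : (Fin m → T) →ₗ[T] N''} (h0 : ∀ a, q (j a) = 0) (hex : ∀ b, q b = 0 → ∃ a, j a = b)
    (g : GG K M (T := T) N →ₗ[Module.End T M] Module.End T M) :
    ∃ h' : M →ₗ[T] N, EE y h' = g := by
  obtain ⟨h, hh⟩ := EE_surj y he (g ∘ₗ Gmap j)
  have hq : q ∘ₗ h = 0 := by
    apply EE_inj y he
    rw [EE_zero]
    refine LinearMap.ext fun ξ => ?_
    rw [EE_comp, hh, LinearMap.comp_apply, Gmap_comp_zero h0, map_zero]
    rfl
  obtain ⟨h', rfl⟩ := factor hj hex h hq
  refine ⟨h', LinearMap.ext fun ξ => ?_⟩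
  obtain ⟨η, rfl⟩ := Gmap_surj (K := K) (M := M) hj ξ
  rw [← EE_comp, hh]
  rfl

end Pool.Agent.H190.NK
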