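import Mathlib

/-!
# Elementary facts on `Ext` in module categories (project NK of helper379, job P2-CORE)
-/

set_option autoImplicit false

open CategoryTheory CategoryTheory.Abelian

namespace Pool.Agent.H190.NK

section sequences

variable {R : Type} [Ring R] {S : ShortComplex (ModuleCat.{0} R)} (hS : S.ShortExact)

include hS

/-- dimension shift in the first variable -/
theorem contra_shift [Projective S.X₂] (Y : ModuleCat.{0} R) (n : ℕ)
    (h : Subsingleton (Ext S.X₁ Y (n + 1))) : Subsingleton (Ext S.X₃ Y (n + 2)) := by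
  refine subsingleton_of_forall_eq 0 fun x => ?_
  obtain ⟨x₁, hx₁⟩ := Ext.contravariant_sequence_exact₃ hS Y x (Ext.eq_zero_of_projective _)
    (show 1 + (n + 1) = n + 2 by omega)
  rw [← hx₁, Subsingleton.elim x₁ 0, Ext.comp_zero]

/-- `Ext¹ = 0` from the extension property -/
theorem contra_one [Projective S.X₂] (Y : ModuleCat.{0} R)
    (h : ∀ g : S.X₁ ⟶ Y, ∃ g' : S.X₂ ⟶ Y, S.f ≫ g' = g) : Subsingleton (Ext S.X₃ Y 1) := by
  refine subsingleton_of_forall_eq 0 fun x => ?_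
  obtain ⟨x₁, hx₁⟩ := Ext.contravariant_sequence_exact₃ hS Y x (Ext.eq_zero_of_projective _)
    (show 1 + 0 = 1 by omega)
  obtain ⟨g, rfl⟩ := (Ext.addEquiv₀ (X := S.X₁) (Y := Y)).symm.surjective x₁
  obtain ⟨g', rfl⟩ := h g
  rw [← hx₁]
  have : Ext.addEquiv₀.symm (S.f ≫ g') = (Ext.mk₀ S.f).comp (Ext.mk₀ g') (zero_add 0) := by
    rw [Ext.mk₀_comp_mk₀]
    rfl
  rw [this]
  exact hS.extClass_comp_assoc _

/-- dimension shift in the second variable -/
theorem co_shift [Injective S.X₂] (X : ModuleCat.{0} R) (n : ℕ)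
    (h : Subsingleton (Ext X S.X₁ (n + 2))) : Subsingleton (Ext X S.X₃ (n + 1)) := by
  refine subsingleton_of_forall_eq 0 fun x => ?_
  obtain ⟨x₂, hx₂⟩ := Ext.covariant_sequence_exact₃ X hS x (show (n + 1) + 1 = n + 2 by omega)
    (Subsingleton.elim _ _)
  rw [← hx₂, Ext.eq_zero_of_injective x₂, Ext.zero_comp]

/-- lifting -/
theorem co_lift (X : ModuleCat.{0} R) (h : Subsingleton (Ext X S.X₁ 1)) (g : X ⟶ S.X₃) :
    ∃ g' : X ⟶ S.X₂, g' ≫ S.g = g := by
  obtain ⟨x₂, hx₂⟩ := Ext.covariant_sequence_exact₃ X hS (Ext.mk₀ g) (show 0 + 1 = 1 by omega)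
    (Subsingleton.elim _ _)
  obtain ⟨g', rfl⟩ := (Ext.addEquiv₀ (X := X) (Y := S.X₂)).symm.surjective x₂
  refine ⟨g', ?_⟩
  apply (Ext.addEquiv₀ (X := X) (Y := S.X₃)).symm.injective
  have : Ext.addEquiv₀.symm (g' ≫ S.g) = (Ext.mk₀ g').comp (Ext.mk₀ S.g) (zero_add 0) := by
    rw [Ext.mk₀_comp_mk₀]
    rfl
  rw [this]
  exact hx₂

theorem co_mid (X : ModuleCat.{0} R) (n : ℕ) (h1 : Subsingleton (Ext X S.X₁ n))
    (h3 : Subsingleton (Ext X S.X₃ n)) : Subsingleton (Ext X S.X₂ n) := by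
  refine subsingleton_of_forall_eq 0 fun x => ?_
  obtain ⟨x₁, hx₁⟩ := Ext.covariant_sequence_exact₂ X hS x (Subsingleton.elim _ _)
  rw [← hx₁, Subsingleton.elim x₁ 0, Ext.zero_comp]

end sequences

/-- the short exact sequence of modules -/
theorem shortExact_of {R : Type} [Ring R] {A B C : Type} [AddCommGroup A] [AddCommGroup B]
    [AddCommGroup C] [Module R A] [Module R B] [Module R C] (f : A →ₗ[R] B) (g : B →ₗ[R] C)
    (hf : Function.Injective f) (hg : Function.Surjective g) (h0 : ∀ a, g (f a) = 0)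
    (h : ∀ b, g b = 0 → ∃ a, f a = b) :
    (ShortComplex.mk (ModuleCat.ofHom f) (ModuleCat.ofHom g)
      (by ext a; exact h0 a)).ShortExact := by
  have hm : Mono (ModuleCat.ofHom f) := (ModuleCat.mono_iff_injective _).mpr hf
  have he : Epi (ModuleCat.ofHom g) := (ModuleCat.epi_iff_surjective _).mpr hg
  exact { exact := (ShortComplex.moduleCat_exact_iff _).mpr h, mono_f := hm, epi_g := he }

end Pool.Agent.H190.NK
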