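import Pool.Agent.H190.NK.Main
import Pool.Agent.H379.GS.Ring

/-!
# The statements of the job P2-CORE (project NK of helper379)
-/

set_option autoImplicit false
set_option linter.unusedSectionVars false
set_option linter.unusedVariables false

open CategoryTheory CategoryTheory.Abelian
open Pool.Agent.H379.GS

namespace Pool.Agent.H190.NK

section notinj

variable {T : Type} [Ring T]
variable {M : Type} [AddCommGroup M] [Module T M] {X : Type} [AddCommGroup X] [Module T X]

theorem endo_hom' {p₁ : M →ₗ[T] T} {e : M} (he : p₁ e = 1)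
    (θ : M →ₗ[Module.End T M] Module.End T M) (z x : M) :
    θ z x = p₁ (θ e x) • z := by
  have h1 : z = (p₁.smulRight z : Module.End T M) • e := by
    change z = p₁ e • z
    rw [he, one_smul]
  have h2 : θ z = (p₁.smulRight z : Module.End T M) * θ e := by
    conv_lhs => rw [h1]
    rw [map_smul, smul_eq_mul]
  rw [h2]
  rfl

/-- if `End_T M` is self-injective, then the direct summand `X` of the generator `M` is
projective -/
theorem projective_of_injective {p₁ : M →ₗ[T] T} {e : M} (he : p₁ e = 1) (ι : X →ₗ[T] M)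
    (σ : M →ₗ[T] X) (hισ : ∀ x, σ (ι x) = x) [Module.Finite T X]
    (hA : Module.Injective (Module.End T M) (Module.End T M)) : Module.Projective T X := by
  obtain ⟨n, π, hπ⟩ := Module.Finite.exists_fin' T X
  let F : (X →ₗ[T] M) →ₗ[Module.End T M] (Fin n → M) :=
    { toFun := fun g i => g (π (Pi.single i 1))
      map_add' := fun g g' => rfl
      map_smul' := fun γ g => rfl }
  have hF : Function.Injective F := by
    intro g g' h
    have h1 : g ∘ₗ π = g' ∘ₗ π := by
      refine LinearMap.pi_ext' fun i => ?_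
      ext
      exact congrFun h i
    ext x
    obtain ⟨v, rfl⟩ := hπ x
    exact LinearMap.congr_fun h1 v
  let G₀ : (X →ₗ[T] M) →ₗ[Module.End T M] Module.End T M :=
    { toFun := fun g => g ∘ₗ σ
      map_add' := fun g g' => rfl
      map_smul' := fun γ g => rfl }
  obtain ⟨E, hE⟩ := hA.out F hF G₀
  let θ : Fin n → M →ₗ[Module.End T M] Module.End T M :=
    fun i => E ∘ₗ LinearMap.single (Module.End T M) (fun _ => M) i
  let h : Fin n → M →ₗ[T] T := fun i => p₁ ∘ₗ (θ i e : M →ₗ[T] M)
  have key : ∀ (v : Fin n → M) (x : M), E v x = ∑ i, h i x • v i := by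
    intro v x
    conv_lhs => rw [← Finset.univ_sum_single v]
    rw [map_sum, LinearMap.sum_apply]
    refine Finset.sum_congr rfl fun i _ => ?_
    exact endo_hom' he (θ i) (v i) x
  have hι : Function.Injective ι := fun x x' hx => by rw [← hισ x, hx, hισ]
  refine Module.Projective.of_split (M := Fin n → T) (LinearMap.pi fun i => h i ∘ₗ ι) π ?_
  refine LinearMap.ext fun x => hι ?_
  have h1 : E (F ι) (ι x) = ι x := by
    rw [hE]
    change ι (σ (ι x)) = ι x
    rw [hισ]
  rw [key] at h1
  rw [LinearMap.id_apply]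
  refine Eq.trans ?_ h1
  rw [LinearMap.comp_apply]
  have h2 : (LinearMap.pi fun i => h i ∘ₗ ι) x =
      ∑ i, h i (ι x) • (Pi.single i 1 : Fin n → T) := by
    ext j
    rw [Finset.sum_apply, Finset.sum_eq_single j]
    · simp
    · intro i _ hi; simp [hi.symm]
    · simp
  rw [h2, map_sum, map_sum]
  refine Finset.sum_congr rfl fun i _ => ?_
  rw [map_smul, map_smul]
  rfl

end notinj

theorem subsingleton_of_iso {C : Type 1} [Category.{0} C] [Abelian C] [HasExt.{0} C] {X X' Y : C}
    (e : X ≅ X') (n : ℕ) (h : Subsingleton (Ext.{0} X Y n)) : Subsingleton (Ext.{0} X' Y n) := by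
  refine subsingleton_of_forall_eq 0 fun x => ?_
  have h1 : x = (Ext.mk₀ e.inv).comp ((Ext.mk₀ e.hom).comp x (zero_add n)) (zero_add n) := by
    rw [Ext.mk₀_comp_mk₀_assoc]
    simp
  rw [h1, Subsingleton.elim ((Ext.mk₀ e.hom).comp x (zero_add n)) 0, Ext.comp_zero]

/-- the dual of the endomorphism algebra is `G M` -/
def isoDA (K T M : Type) [Field K] [Ring T] [Algebra K T] [AddCommGroup M] [Module T M]
    [Module K M] [IsScalarTower K T M] [Module.Finite K M] :
    GG K M (T := T) M ≃ₗ[Module.End T M] DA K (Module.End T M) where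
  toFun ξ := DA.mk ξ.ev
  invFun f := GG.mk (DA.ev f)
  map_add' ξ ξ' := rfl
  map_smul' γ ξ := rfl
  left_inv ξ := rfl
  right_inv f := rfl

/-- copy of `Pool.Agent.H379.NK.Tach1Fails` (same body, so definitionally equal) -/
def Tach1Fails (K : Type) [Field K] (A : Type) [Ring A] [Algebra K A] : Prop :=
  Module.Finite K A ∧ ¬ Module.Injective A A ∧
    ∀ i : ℕ, 1 ≤ i → Subsingleton (Ext (ModuleCat.of A (DA K A)) (ModuleCat.of A A) i)

/-- SUBTASK P2-CORE. -/
theorem tach1_of_tach2 (K : Type) [Field K] (T : Type) [Ring T] [Algebra K T]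
    (hT : IsSymmetricAlg K T) (X : Type) [AddCommGroup X] [Module T X] [Module.Finite T X]
    (hX : ¬ Module.Projective T X)
    (hE : ∀ i : ℕ, 1 ≤ i → Subsingleton (Ext (ModuleCat.of T X) (ModuleCat.of T X) i)) :
    ∃ (A : Type) (_ : Ring A) (_ : Algebra K A), Tach1Fails K A := by
  obtain ⟨hfin, φ, hφ⟩ := hT
  let y : Sy K T := ⟨φ, hφ⟩
  let _ : Module K X := Module.compHom X (algebraMap K T)
  have _ : IsScalarTower K T X := tower_compHom X
  have _ : Module.Finite K X := Module.Finite.trans T X
  refine ⟨Module.End T (T × X), inferInstance, inferInstance, ?_, ?_, ?_⟩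
  · let g : Module.End T (T × X) →ₗ[K] ((T × X) →ₗ[K] (T × X)) :=
      { toFun := fun e => e.restrictScalars K
        map_add' := fun _ _ => rfl
        map_smul' := fun _ _ => rfl }
    exact Module.Finite.of_injective g (LinearMap.restrictScalars_injective K)
  · intro hA
    exact hX (projective_of_injective (p₁ := LinearMap.fst T T X) (e := ((1, 0) : T × X)) rfl
      (LinearMap.inr T T X) (LinearMap.snd T T X) (fun x => rfl) hA)
  · intro i hi
    obtain ⟨k, rfl⟩ : ∃ k, i = k + 1 := ⟨i - 1, by omega⟩
    have hcls : Cls T X (T × X) := by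
      refine ⟨inferInstance, fun n => ?_⟩
      have hS := shortExact_of (LinearMap.inl T T X) (LinearMap.snd T T X)
        LinearMap.inl_injective LinearMap.snd_surjective (fun a => rfl)
        (fun b hb => ⟨b.1, Prod.ext rfl hb.symm⟩)
      have hinj := y.injective_self
      have : Injective (ModuleCat.of T T) := Module.injective_object_of_injective_module T T
      refine co_mid hS (ModuleCat.of T X) (n + 1) ?_ (hE (n + 1) (by omega))
      exact subsingleton_of_forall_eq 0 fun x => Ext.eq_zero_of_injective x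
    exact subsingleton_of_iso (isoDA K T (T × X)).toModuleIso (k + 1) (ext_G y k (T × X) hcls)

/-- SUBTASK P2-S01484 (the statement is the frozen one). -/
theorem s01484_of (K : Type) [Field K] (A₀ : Type) [Ring A₀] [Algebra K A₀]
    (h : Tach1Fails K A₀) :
    ¬ (∀ (k : Type) [Field k] (A : Type) [Ring A] [Algebra k A] [FiniteDimensional k A]
      (M : Type) [AddCommGroup M] [Module A M] [Module k M] [IsScalarTower k A M]
      (e : M ≃ₗ[k] Module.Dual k A),
      (∀ (a : A) (m : M) (x : A), e (a • m) x = e m (x * a)) →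
      ∀ [CategoryTheory.HasExt.{1} (ModuleCat.{0} A)],
      (Module.Injective A A ↔
        ∀ i : ℕ, 1 ≤ i →
          Subsingleton
            (CategoryTheory.Abelian.Ext.{1} (ModuleCat.of A M) (ModuleCat.of A A) i))) := by
  intro H
  obtain ⟨h1, h2, h3⟩ := h
  have : FiniteDimensional K A₀ := h1
  have : HasExt.{1} (ModuleCat.{0} A₀) := HasExt.standard _
  let e : DA K A₀ ≃ₗ[K] Module.Dual K A₀ := LinearEquiv.refl K (A₀ →ₗ[K] K)
  refine h2 ((H K A₀ (DA K A₀) e (fun a m x => rfl)).mpr fun i hi => ?_)
  have := h3 i hi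
  have E : Ext.{1} (ModuleCat.of A₀ (DA K A₀)) (ModuleCat.of A₀ A₀) i ≃
      Ext.{0} (ModuleCat.of A₀ (DA K A₀)) (ModuleCat.of A₀ A₀) i := Ext.chgUniv
  exact E.subsingleton

end Pool.Agent.H190.NK
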