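import Pool.Agent.H190.NK.ExtLemmas

/-!
# The functor `N ↦ D Hom_T(M, N)` (project NK of helper379, job P2-CORE)
-/

set_option autoImplicit false
set_option linter.unusedSectionVars false
set_option linter.unusedVariables false

open CategoryTheory CategoryTheory.Abelian

namespace Pool.Agent.H190.NK

variable {K : Type} [Field K] {T : Type} [Ring T] [Algebra K T]

/-- symmetrising form -/
structure Sy (K T : Type) [Field K] [Ring T] [Algebra K T] where
  φ : T ≃ₗ[K] Module.Dual K T
  h : ∀ a b c x : T, φ (a * c * b) x = φ c (b * x * a)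

variable (y : Sy K T)

namespace Sy

/-- the symmetrising form -/
def lam : T →ₗ[K] K := y.φ 1

theorem φ_left (t x : T) : y.φ t x = y.lam (x * t) := by
  have := y.h t 1 1 x
  simpa [lam] using this

theorem φ_right (t x : T) : y.φ t x = y.lam (t * x) := by
  have := y.h 1 t 1 x
  simpa [lam] using this

theorem lam_comm (a b : T) : y.lam (a * b) = y.lam (b * a) := by
  rw [← y.φ_left, y.φ_right]

theorem eq_of_lam {t t' : T} (h : ∀ a, y.lam (a * t) = y.lam (a * t')) : t = t' := by
  apply y.φ.injective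
  ext a
  rw [y.φ_left, y.φ_left, h]

variable {Q : Type} [AddCommGroup Q] [Module T Q] [Module K Q] [IsScalarTower K T Q]

/-- the `T`-linear map with a given trace -/
def lift (l : Q →ₗ[K] K) : Q →ₗ[T] T where
  toFun q := y.φ.symm (l ∘ₗ (LinearMap.toSpanSingleton T Q q).restrictScalars K)
  map_add' q q' := by
    rw [← map_add]
    congr 1
    ext a
    simp [smul_add]
  map_smul' t q := by
    apply y.eq_of_lam
    intro a
    rw [← y.φ_left, LinearEquiv.apply_symm_apply, RingHom.id_apply, smul_eq_mul, ← mul_assoc,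
      ← y.φ_left, LinearEquiv.apply_symm_apply]
    simp [mul_smul]

theorem lam_mul_lift (l : Q →ₗ[K] K) (a : T) (q : Q) : y.lam (a * y.lift l q) = l (a • q) := by
  rw [← y.φ_left]
  change y.φ (y.φ.symm _) a = _
  rw [LinearEquiv.apply_symm_apply]
  simp

theorem lam_lift (l : Q →ₗ[K] K) (q : Q) : y.lam (y.lift l q) = l q := by
  have := y.lam_mul_lift l 1 q
  simpa using this

theorem lift_lam (f : Q →ₗ[T] T) : y.lift (y.lam ∘ₗ f.restrictScalars K) = f := by
  ext q
  apply y.eq_of_lam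
  intro a
  rw [y.lam_mul_lift]
  simp

theorem hom_ext {f g : Q →ₗ[T] T} (h : ∀ q, y.lam (f q) = y.lam (g q)) : f = g := by
  rw [← y.lift_lam f, ← y.lift_lam g]
  congr 1
  ext q
  exact h q

theorem sep {q q' : Q} (h : ∀ s : Q →ₗ[T] T, y.lam (s q) = y.lam (s q')) : q = q' := by
  rw [← sub_eq_zero, ← Module.forall_dual_apply_eq_zero_iff K]
  intro l
  have := h (y.lift l)
  rw [y.lam_lift, y.lam_lift] at this
  rw [map_sub, this, sub_self]

include y in
/-- `T` is injective as a module over itself -/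
theorem injective_self : Module.Injective T T := by
  refine ⟨fun P Q _ _ _ _ f hf g => ?_⟩
  let : Module K P := Module.compHom P (algebraMap K T)
  let : Module K Q := Module.compHom Q (algebraMap K T)
  have : IsScalarTower K T P := ⟨fun c t p => by
    change (c • t) • p = algebraMap K T c • (t • p)
    rw [smul_smul, Algebra.smul_def]⟩
  have : IsScalarTower K T Q := ⟨fun c t p => by
    change (c • t) • p = algebraMap K T c • (t • p)
    rw [smul_smul, Algebra.smul_def]⟩
  obtain ⟨l, hl⟩ := LinearMap.dualMap_surjective_of_injective (f := f.restrictScalars K)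
    (by exact hf) (y.lam ∘ₗ g.restrictScalars K)
  refine ⟨y.lift l, fun p => ?_⟩
  apply y.eq_of_lam
  intro a
  rw [y.lam_mul_lift, ← map_smul]
  have := LinearMap.congr_fun hl (a • p)
  simp only [LinearMap.dualMap_apply', LinearMap.comp_apply, LinearMap.restrictScalars_apply] at this
  rw [this, map_smul, smul_eq_mul]

end Sy

variable {M : Type} [AddCommGroup M] [Module T M] [Module K M] [IsScalarTower K T M]
  [Module.Finite K M]

/-- `κ : D Hom_T(M, T) → M`, the inverse of the canonical map -/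
theorem exists_κ (ξ : Module.Dual K (M →ₗ[T] T)) : ∃ m : M, ∀ s : M →ₗ[T] T, y.lam (s m) = ξ s := by
  let L : Module.Dual K M →ₗ[K] (M →ₗ[T] T) :=
    { toFun := fun l => y.lift l
      map_add' := fun l l' => y.hom_ext fun q => by
        rw [y.lam_lift, LinearMap.add_apply, LinearMap.add_apply, map_add, y.lam_lift, y.lam_lift]
      map_smul' := fun c l => y.hom_ext fun q => by
        rw [y.lam_lift, LinearMap.smul_apply, LinearMap.smul_apply, map_smul, y.lam_lift,
          RingHom.id_apply] }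
  obtain ⟨m, hm⟩ := (Module.evalEquiv K M).surjective (ξ ∘ₗ L)
  refine ⟨m, fun s => ?_⟩
  have h1 := LinearMap.congr_fun hm (y.lam ∘ₗ s.restrictScalars K)
  simp only [Module.evalEquiv_apply, Module.Dual.eval_apply, LinearMap.comp_apply,
    LinearMap.restrictScalars_apply] at h1
  rw [h1]
  change ξ (y.lift _) = _
  rw [y.lift_lam]

noncomputable def κ (ξ : Module.Dual K (M →ₗ[T] T)) : M := (exists_κ y ξ).choose

theorem κ_spec (ξ : Module.Dual K (M →ₗ[T] T)) (s : M →ₗ[T] T) : y.lam (s (κ y ξ)) = ξ s :=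
  (exists_κ y ξ).choose_spec s


/-- `G N = D Hom_T(M, N)` -/
def GG (K M : Type) {T : Type} [Field K] [Ring T] [Algebra K T] [AddCommGroup M] [Module T M]
    (N : Type) [AddCommGroup N] [Module T N] [Module K N] [IsScalarTower K T N] : Type :=
  Module.Dual K (M →ₗ[T] N)

section G

variable {N : Type} [AddCommGroup N] [Module T N] [Module K N] [IsScalarTower K T N]
variable {N' : Type} [AddCommGroup N'] [Module T N'] [Module K N'] [IsScalarTower K T N']

noncomputable instance : AddCommGroup (GG K M (T := T) N) :=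
  inferInstanceAs (AddCommGroup (Module.Dual K (M →ₗ[T] N)))

/-- underlying functional -/
def GG.ev (ξ : GG K M (T := T) N) : (M →ₗ[T] N) →ₗ[K] K := ξ

def GG.mk (ξ : (M →ₗ[T] N) →ₗ[K] K) : GG K M (T := T) N := ξ

@[simp] theorem GG.ev_mk (ξ : (M →ₗ[T] N) →ₗ[K] K) : (GG.mk ξ).ev = ξ := rfl
@[simp] theorem GG.ev_add (ξ ξ' : GG K M (T := T) N) (f : M →ₗ[T] N) :
    (ξ + ξ').ev f = ξ.ev f + ξ'.ev f := rfl
@[simp] theorem GG.ev_zero (f : M →ₗ[T] N) : (0 : GG K M (T := T) N).ev f = 0 := rfl

theorem GG.ext {ξ ξ' : GG K M (T := T) N} (h : ∀ f, ξ.ev f = ξ'.ev f) : ξ = ξ' :=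
  LinearMap.ext h

/-- precomposition with an endomorphism -/
def pre (γ : Module.End T M) : (M →ₗ[T] N) →ₗ[K] (M →ₗ[T] N) where
  toFun f := f ∘ₗ γ
  map_add' f g := rfl
  map_smul' c f := rfl

noncomputable instance : Module (Module.End T M) (GG K M (T := T) N) where
  smul γ ξ := GG.mk (ξ.ev ∘ₗ pre γ)
  one_smul ξ := GG.ext fun f => rfl
  mul_smul γ δ ξ := GG.ext fun f => rfl
  smul_zero γ := rfl
  smul_add γ ξ ξ' := rfl
  add_smul γ δ ξ := GG.ext fun f => by
    change ξ.ev (f ∘ₗ (γ + δ)) = ξ.ev (f ∘ₗ γ) + ξ.ev (f ∘ₗ δ)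
    rw [LinearMap.comp_add, map_add]
  zero_smul ξ := GG.ext fun f => by
    change ξ.ev (f ∘ₗ 0) = 0
    rw [LinearMap.comp_zero, map_zero]

@[simp] theorem GG.ev_smul (γ : Module.End T M) (ξ : GG K M (T := T) N) (f : M →ₗ[T] N) :
    (γ • ξ).ev f = ξ.ev (f ∘ₗ γ) := rfl

/-- postcomposition -/
def post (v : N →ₗ[T] N') : (M →ₗ[T] N) →ₗ[K] (M →ₗ[T] N') where
  toFun f := v ∘ₗ f
  map_add' f g := by rw [LinearMap.comp_add]
  map_smul' c f := by
    ext x
    simp only [LinearMap.comp_apply, LinearMap.smul_apply, RingHom.id_apply]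
    rw [← algebraMap_smul T c (f x), map_smul, algebraMap_smul]

/-- functoriality of `G` -/
def Gmap (v : N →ₗ[T] N') : GG K M (T := T) N' →ₗ[Module.End T M] GG K M (T := T) N where
  toFun ξ := GG.mk (ξ.ev ∘ₗ post v)
  map_add' ξ ξ' := rfl
  map_smul' γ ξ := rfl

@[simp] theorem ev_Gmap (v : N →ₗ[T] N') (ξ : GG K M (T := T) N') (f : M →ₗ[T] N) :
    (Gmap v ξ).ev f = ξ.ev (v ∘ₗ f) := rfl

/-- the functional `s ↦ ξ (z ↦ s z • n)` -/
def smulF (ξ : GG K M (T := T) N) (n : N) : Module.Dual K (M →ₗ[T] T) where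
  toFun s := ξ.ev (s.smulRight n)
  map_add' s s' := by
    rw [← map_add]
    congr 1
    ext z
    simp [add_smul]
  map_smul' c s := by
    rw [RingHom.id_apply, ← map_smul]
    congr 1
    ext z
    simp

theorem smulF_apply (ξ : GG K M (T := T) N) (n : N) (s : M →ₗ[T] T) :
    smulF ξ n s = ξ.ev (s.smulRight n) := rfl

/-- the endomorphism attached to `ξ` and `u` -/
noncomputable def EE0 (u : M →ₗ[T] N) (ξ : GG K M (T := T) N) : M →ₗ[T] M where
  toFun x := κ y (smulF ξ (u x))
  map_add' x x' := y.sep fun s => by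
    rw [map_add s, map_add y.lam, κ_spec, κ_spec, κ_spec, smulF_apply, smulF_apply, smulF_apply,
      ← map_add]
    congr 1
    ext z
    simp
  map_smul' t x := y.sep fun s => by
    have h1 : ∀ m : M, s m * t = (((LinearMap.toSpanSingleton T T t) ∘ₗ s) : M →ₗ[T] T) m := by
      intro m; simp
    rw [RingHom.id_apply, map_smul, map_smul, smul_eq_mul, y.lam_comm, h1, κ_spec, κ_spec,
      smulF_apply, smulF_apply]
    congr 1
    ext z
    simp [mul_smul]

theorem EE0_spec (u : M →ₗ[T] N) (ξ : GG K M (T := T) N) (x : M) (s : M →ₗ[T] T) :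
    y.lam (s (EE0 y u ξ x)) = ξ.ev (s.smulRight (u x)) :=
  κ_spec y (smulF ξ (u x)) s

/-- the natural map `Hom_T(M, N) → Hom_A(G N, A)` -/
noncomputable def EE (u : M →ₗ[T] N) : GG K M (T := T) N →ₗ[Module.End T M] Module.End T M where
  toFun ξ := EE0 y u ξ
  map_add' ξ ξ' := LinearMap.ext fun x => y.sep fun s => by
    rw [LinearMap.add_apply, map_add, map_add, EE0_spec, EE0_spec, EE0_spec, GG.ev_add]
  map_smul' γ ξ := LinearMap.ext fun x => y.sep fun s => by
    rw [EE0_spec, GG.ev_smul]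
    change _ = y.lam ((s ∘ₗ γ) (EE0 y u ξ x))
    rw [EE0_spec]
    congr 1

/-- characterisation of `EE` -/
theorem EE_spec (u : M →ₗ[T] N) (ξ : GG K M (T := T) N) (x : M) (s : M →ₗ[T] T) :
    y.lam (s (EE y u ξ x)) = ξ.ev (s.smulRight (u x)) :=
  EE0_spec y u ξ x s

theorem EE_comp (v : N →ₗ[T] N') (u : M →ₗ[T] N) (ξ : GG K M (T := T) N') :
    EE y (v ∘ₗ u) ξ = EE y u (Gmap v ξ) := by
  refine LinearMap.ext fun x => y.sep fun s => ?_
  rw [EE_spec, EE_spec, ev_Gmap]
  congr 1
  ext z
  simp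

end G

end Pool.Agent.H190.NK
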